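import Pool.Agent.Lib.MP_5fcb94_co.First

open Pool.Agent.Lib.MP_5fcb94_co

/-- There are two Young graphs with isomorphic underlying directed graphs that are not isomorphic
as Young graphs. -/
theorem Pool.Agent.Results.MP_5fcb94_co.Exist.result :
    ∃ g k g' k' : ℕ, 3 ≤ g ∧ 2 ≤ k ∧ k < g ∧ 3 ≤ g' ∧ 2 ≤ k' ∧ k' < g' ∧ (g, k) ≠ (g', k') ∧
      YoungExists g k ∧ YoungExists g' k' ∧
      (∃ e : YoungNode g k ≃ YoungNode g' k', IsDigraphIso g k g' k' e) ∧
      ¬ ∃ e : YoungNode g k ≃ YoungNode g' k',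
        IsDigraphIso g k g' k' e ∧ PreservesPivots g k g' k' e :=
  ⟨846, 265, 761, 401, by norm_num, by norm_num, by norm_num, by norm_num, by norm_num,
    by norm_num, by decide, exists1, exists2, ⟨_, iso12⟩, no_iso⟩
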